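import Pool.Agent.Work.MP_91103f_lv.Interface

/-!
# Block HW: bridges grow as fast as all walks
-/

set_option autoImplicit false

namespace Pool.TriLev.helper51

open Pool.Agent.Work.MP_91103f_co Pool.TriLev Finset

theorem adj_row {p r : ℤ × ℤ} (h : T6.Adj p r) : r.2 ≤ p.2 + 1 := by
  obtain ⟨k, hk, rfl⟩ := adj_T6 h
  have : dy k ≤ 1 := by
    have : k = 0 ∨ k = 1 ∨ k = 2 ∨ k = 3 ∨ k = 4 ∨ k = 5 := by omega
    rcases this with rfl | rfl | rfl | rfl | rfl | rfl <;> simp [dy]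
  simp only
  omega

theorem row_bound (L : List (ℤ × ℤ)) : ∀ p : ℤ × ℤ, List.IsChain T6.Adj (p :: L) →
    ∀ r ∈ L, r.2 ≤ p.2 + L.length := by
  induction L with
  | nil => intro p _ r hr; simp at hr
  | cons v L ih =>
    intro p h r hr
    rw [List.isChain_cons_cons] at h
    have h1 := adj_row h.1
    rw [List.length_cons]
    push_cast
    rcases List.mem_cons.1 hr with rfl | hr
    · have : (0 : ℤ) ≤ L.length := Int.natCast_nonneg _
      omega
    · have := ih v h.2 r hr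
      omega

theorem BRk_zero {j m : ℕ} (h : m < j) : (BRk j m).ncard = 0 := by
  have : BRk j m = ∅ := by
    rw [Set.eq_empty_iff_forall_notMem]
    rintro L ⟨⟨h1, h2, h3⟩, h4, h5⟩
    rcases List.mem_cons.1 (List.getLastD_mem_cons (l := L) (a := (0, 0))) with h6 | h6
    · rw [h6] at h5
      simp only at h5
      omega
    · have := row_bound L (0, 0) h1 _ h6
      rw [h5, h3] at this
      simp only at this
      omega
  rw [this, Set.ncard_empty]

theorem HSk_zero_eq {n : ℕ} : HSk 0 n ⊆ {L | L = [] ∧ n = 0} := by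
  rintro L ⟨⟨h1, h2, h3⟩, h4⟩
  have : L = [] := by
    cases L with
    | nil => rfl
    | cons v L =>
      have := h4 v (List.mem_cons_self)
      push_cast at this
      omega
  subst this
  exact ⟨rfl, by simpa using h3.symm⟩

theorem HSk_zero (n : ℕ) : (HSk 0 n).ncard ≤ if n = 0 then 1 else 0 := by
  split_ifs with h
  · have : HSk 0 n ⊆ {([] : List (ℤ × ℤ))} := fun L hL => (HSk_zero_eq hL).1
    refine (Set.ncard_le_ncard this (Set.finite_singleton _)).trans ?_
    rw [Set.ncard_singleton]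
  · have : HSk 0 n = ∅ := by
      rw [Set.eq_empty_iff_forall_notMem]
      exact fun L hL => h (HSk_zero_eq hL).2
    rw [this, Set.ncard_empty]

theorem HS_eq {n N : ℕ} (h : n ≤ N) : HS n = HSk N n := by
  ext L
  constructor
  · rintro ⟨h1, h2⟩
    refine ⟨h1, fun p hp => ⟨h2 p hp, ?_⟩⟩
    have := row_bound L (0, 0) h1.1 p hp
    rw [h1.2.2] at this
    simp only at this
    omega
  · rintro ⟨h1, h2⟩
    exact ⟨h1, fun p hp => (h2 p hp).1⟩

theorem conv {a c : ℕ → ℝ} (ha : ∀ n, 0 ≤ a n) (hc : ∀ n, 0 ≤ c n) (N : ℕ) :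
    ∑ n ∈ range (N + 1), ∑ m ∈ Icc 1 n, a m * c (n - m) ≤
      (∑ m ∈ Icc 1 N, a m) * ∑ n ∈ range (N + 1), c n := by
  classical
  have h1 : ∀ n ∈ range (N + 1), ∑ m ∈ Icc 1 n, a m * c (n - m) =
      ∑ m ∈ Icc 1 N, if m ≤ n then a m * c (n - m) else 0 := by
    intro n hn
    rw [mem_range] at hn
    rw [← sum_filter]
    apply sum_congr _ (fun _ _ => rfl)
    ext m
    simp only [mem_Icc, mem_filter]
    omega
  rw [sum_congr rfl h1, sum_comm, sum_mul]
  refine sum_le_sum fun m _ => ?_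
  have h2 : ∑ n ∈ range (N + 1), (if m ≤ n then a m * c (n - m) else 0) =
      a m * ∑ n ∈ (range (N + 1)).filter (fun n => m ≤ n), c (n - m) := by
    rw [← sum_filter, mul_sum]
  rw [h2]
  refine mul_le_mul_of_nonneg_left ?_ (ha m)
  have h3 : ∑ n ∈ (range (N + 1)).filter (fun n => m ≤ n), c (n - m) =
      ∑ n ∈ ((range (N + 1)).filter (fun n => m ≤ n)).image (fun n => n - m), c n := by
    rw [sum_image]
    intro x hx y hy hxy
    have hx' := (mem_filter.1 (mem_coe.1 hx)).2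
    have hy' := (mem_filter.1 (mem_coe.1 hy)).2
    simp only at hxy
    omega
  rw [h3]
  refine sum_le_sum_of_subset_of_nonneg ?_ (fun i _ _ => hc i)
  intro n hn
  obtain ⟨k, hk, rfl⟩ := mem_image.1 hn
  have := (mem_filter.1 hk).1
  rw [mem_range] at this ⊢
  omega

section

variable (z : ℝ)

/-- weighted number of half-space walks -/
noncomputable def fw (k n : ℕ) : ℝ := ((HSk k n).ncard : ℝ) * z ^ n

/-- weighted number of bridges -/
noncomputable def bw (j m : ℕ) : ℝ := ((BRk j m).ncard : ℝ) * z ^ m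

variable {z}

theorem step (hHWH : Stmt_HWH) (hz : 0 < z) (N k : ℕ) :
    ∑ n ∈ range (N + 1), fw z (k + 1) n ≤
      (1 + ∑ m ∈ Icc 1 N, bw z (k + 1) m) * ∑ n ∈ range (N + 1), fw z k n := by
  have h1 : ∀ n, fw z (k + 1) n ≤ fw z k n + ∑ m ∈ Icc 1 n, bw z (k + 1) m * fw z k (n - m) := by
    intro n
    have h2 := hHWH k n
    have h3 : ((HSk (k + 1) n).ncard : ℝ) ≤ (HSk k n).ncard +
        ∑ m ∈ Icc 1 n, ((BRk (k + 1) m).ncard : ℝ) * (HSk k (n - m)).ncard := by exact_mod_cast h2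
    have h4 := mul_le_mul_of_nonneg_right h3 (pow_nonneg hz.le n)
    refine h4.trans (le_of_eq ?_)
    rw [add_mul, sum_mul]
    congr 1
    apply sum_congr rfl
    intro m hm
    rw [mem_Icc] at hm
    have h5 : z ^ n = z ^ m * z ^ (n - m) := by
      rw [← pow_add]; congr 1; omega
    unfold fw bw
    rw [h5]; ring
  calc ∑ n ∈ range (N + 1), fw z (k + 1) n
      ≤ ∑ n ∈ range (N + 1), (fw z k n + ∑ m ∈ Icc 1 n, bw z (k + 1) m * fw z k (n - m)) :=
        sum_le_sum fun n _ => h1 n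
    _ = ∑ n ∈ range (N + 1), fw z k n +
        ∑ n ∈ range (N + 1), ∑ m ∈ Icc 1 n, bw z (k + 1) m * fw z k (n - m) := sum_add_distrib
    _ ≤ ∑ n ∈ range (N + 1), fw z k n +
        (∑ m ∈ Icc 1 N, bw z (k + 1) m) * ∑ n ∈ range (N + 1), fw z k n := by
        have := conv (a := fun m => bw z (k + 1) m) (c := fun n => fw z k n)
          (fun m => by unfold bw; positivity) (fun n => by unfold fw; positivity) N
        linarith
    _ = _ := by ring

theorem F_le (hHWH : Stmt_HWH) (hz : 0 < z) (N k : ℕ) :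
    ∑ n ∈ range (N + 1), fw z k n ≤
      Real.exp (∑ j ∈ Icc 1 k, ∑ m ∈ Icc 1 N, bw z j m) := by
  induction k with
  | zero =>
    simp only [zero_lt_one, Icc_eq_empty_of_lt, sum_empty, Real.exp_zero]
    have h1 : ∀ n ∈ range (N + 1), fw z 0 n ≤ if n = 0 then 1 else 0 := by
      intro n _
      have h2 := HSk_zero n
      unfold fw
      split_ifs at h2 ⊢ with h
      · subst h
        have : ((HSk 0 0).ncard : ℝ) ≤ 1 := by exact_mod_cast h2
        simpa using this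
      · have : (HSk 0 n).ncard = 0 := by omega
        rw [this]; simp
    refine (sum_le_sum h1).trans ?_
    rw [sum_ite_eq' (range (N + 1)) 0 (fun _ => (1 : ℝ))]
    simp
  | succ k ih =>
    have h1 := step hHWH hz N k
    have h2 : (0 : ℝ) ≤ ∑ m ∈ Icc 1 N, bw z (k + 1) m :=
      sum_nonneg fun m _ => by unfold bw; positivity
    have h3 : 1 + ∑ m ∈ Icc 1 N, bw z (k + 1) m ≤
        Real.exp (∑ m ∈ Icc 1 N, bw z (k + 1) m) := by
      have := Real.add_one_le_exp (∑ m ∈ Icc 1 N, bw z (k + 1) m)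
      linarith
    rw [sum_Icc_succ_top (by omega), Real.exp_add]
    refine h1.trans ?_
    rw [mul_comm (Real.exp _)]
    exact mul_le_mul h3 ih (sum_nonneg fun n _ => by unfold fw; positivity) (Real.exp_pos _).le

theorem sum_bw_le (hz : 0 < z) (N : ℕ) :
    ∑ j ∈ Icc 1 N, ∑ m ∈ Icc 1 N, bw z j m ≤ ∑ m ∈ Icc 1 N, (br m : ℝ) * z ^ m := by
  rw [sum_comm]
  refine sum_le_sum fun m _ => ?_
  unfold bw
  rw [← sum_mul]
  refine mul_le_mul_of_nonneg_right ?_ (by positivity)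
  have h : ∑ j ∈ Icc 1 N, (BRk j m).ncard ≤ br m := by
    unfold br
    refine sum_le_sum_of_ne_zero ?_
    intro j _ hj
    rw [mem_range]
    by_contra hcon
    exact hj (BRk_zero (by omega))
  exact_mod_cast h

end

theorem geom_le {r : ℝ} (h0 : 0 ≤ r) (h1 : r < 1) (N : ℕ) :
    ∑ m ∈ Icc 1 N, r ^ m ≤ 1 / (1 - r) := by
  have h2 : ∑ m ∈ Icc 1 N, r ^ m ≤ ∑ m ∈ range (N + 1), r ^ m := by
    refine sum_le_sum_of_subset_of_nonneg ?_ (fun i _ _ => pow_nonneg h0 i)
    intro m hm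
    rw [mem_Icc] at hm
    rw [mem_range]
    omega
  refine h2.trans ?_
  rw [le_div_iff₀ (by linarith), mul_comm, mul_neg_geom_sum]
  have := pow_nonneg h0 (N + 1)
  linarith

/-- **Block HW.** -/
theorem stmt_HW (hHWH : Stmt_HWH) (hHWC : Stmt_HWC) : Stmt_HW := by
  intro ρ ρ' C hρ hρρ hbr
  have hρ' : 0 < ρ' := hρ.trans hρρ
  obtain ⟨z, hz⟩ : ∃ z : ℝ, z = 1 / ρ' := ⟨_, rfl⟩
  have hz0 : 0 < z := by rw [hz]; positivity
  have hC : 0 ≤ C := by
    have h1 := hbr 0
    rw [pow_zero, mul_one] at h1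
    exact (Nat.cast_nonneg _).trans h1
  obtain ⟨r, hr⟩ : ∃ r : ℝ, r = ρ * z := ⟨_, rfl⟩
  have hr0 : 0 ≤ r := by rw [hr]; positivity
  have hr1 : r < 1 := by
    rw [hr, hz, mul_one_div, div_lt_one hρ']
    exact hρρ
  obtain ⟨E, hE⟩ : ∃ E : ℝ, E = Real.exp (C * (1 / (1 - r))) := ⟨_, rfl⟩
  have hE0 : 0 < E := by rw [hE]; exact Real.exp_pos _
  have hF : ∀ N : ℕ, ∑ n ∈ range (N + 1), fw z N n ≤ E := by
    intro N
    refine (F_le hHWH hz0 N N).trans ?_
    rw [hE]
    apply Real.exp_le_exp.2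
    refine (sum_bw_le hz0 N).trans ?_
    calc ∑ m ∈ Icc 1 N, (br m : ℝ) * z ^ m ≤ ∑ m ∈ Icc 1 N, C * r ^ m := by
          refine sum_le_sum fun m _ => ?_
          refine (mul_le_mul_of_nonneg_right (hbr m) (pow_nonneg hz0.le m)).trans (le_of_eq ?_)
          rw [hr, mul_pow]; ring
      _ = C * ∑ m ∈ Icc 1 N, r ^ m := by rw [mul_sum]
      _ ≤ C * (1 / (1 - r)) := mul_le_mul_of_nonneg_left (geom_le hr0 hr1 N) hC
  obtain ⟨hs, hhs⟩ : ∃ hs : ℕ → ℝ, ∀ n, hs n = ((HS n).ncard : ℝ) * z ^ n :=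
    ⟨fun n => ((HS n).ncard : ℝ) * z ^ n, fun _ => rfl⟩
  have hs0 : ∀ n, 0 ≤ hs n := fun n => by rw [hhs]; positivity
  have hsum : ∀ N : ℕ, ∑ n ∈ range (N + 1), hs n ≤ E := by
    intro N
    refine le_trans (le_of_eq ?_) (hF N)
    apply sum_congr rfl
    intro n hn
    rw [mem_range] at hn
    rw [hhs, HS_eq (show n ≤ N by omega)]
    rfl
  have hsing : ∀ n, hs n ≤ E := fun n =>
    (single_le_sum (f := hs) (fun i _ => hs0 i) (mem_range.2 (Nat.lt_succ_self n))).trans (hsum n)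
  refine ⟨E * E * ρ', fun n => ?_⟩
  have h1 := hHWC n
  have h2 : (c6 n : ℝ) ≤ ∑ m ∈ range (n + 1), ((HS (m + 1)).ncard : ℝ) * (HS (n - m)).ncard := by
    exact_mod_cast h1
  have h3 : (c6 n : ℝ) * z ^ (n + 1) ≤ E * E := by
    calc (c6 n : ℝ) * z ^ (n + 1)
        ≤ (∑ m ∈ range (n + 1), ((HS (m + 1)).ncard : ℝ) * (HS (n - m)).ncard) * z ^ (n + 1) :=
          mul_le_mul_of_nonneg_right h2 (by positivity)
      _ = ∑ m ∈ range (n + 1), hs (m + 1) * hs (n - m) := by
          rw [sum_mul]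
          apply sum_congr rfl
          intro m hm
          rw [mem_range] at hm
          have h5 : z ^ (n + 1) = z ^ (m + 1) * z ^ (n - m) := by
            rw [← pow_add]; congr 1; omega
          rw [hhs, hhs, h5]; ring
      _ ≤ ∑ m ∈ range (n + 1), hs (m + 1) * E :=
          sum_le_sum fun m _ => mul_le_mul_of_nonneg_left (hsing _) (hs0 _)
      _ = (∑ m ∈ range (n + 1), hs (m + 1)) * E := by rw [sum_mul]
      _ ≤ E * E := by
          refine mul_le_mul_of_nonneg_right ?_ hE0.le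
          have h6 := hsum (n + 1)
          rw [sum_range_succ'] at h6
          have := hs0 0
          linarith
  have h4 : z ^ (n + 1) * ρ' ^ (n + 1) = 1 := by
    rw [← mul_pow, hz, one_div, inv_mul_cancel₀ hρ'.ne', one_pow]
  calc (c6 n : ℝ) = (c6 n : ℝ) * (z ^ (n + 1) * ρ' ^ (n + 1)) := by rw [h4, mul_one]
    _ = ((c6 n : ℝ) * z ^ (n + 1)) * ρ' ^ (n + 1) := by ring
    _ ≤ (E * E) * ρ' ^ (n + 1) := mul_le_mul_of_nonneg_right h3 (by positivity)
    _ = E * E * ρ' * ρ' ^ n := by ring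

end Pool.TriLev.helper51
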